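import Pool.Agent.T9h44.LS3.P6
import Pool.Agent.T9h44.LS2.H5
import Pool.Agent.TH400.LS_E4
import Pool.Agent.TH89.LS_F
import Pool.Agent.TH496.LS_MOD
import Pool.Agent.TH889.LS_W
import Pool.Agent.TH889.LS_DUAL
import Pool.Agent.TH73.LS_LS4
import Pool.Agent.TH986.LS_SUM
import Pool.Agent.TH312.LS_ONE
import Pool.Agent.TH902.LS_T2
import Pool.Agent.TH228.LS_T4
import Pool.Agent.TH209.LS_TP

set_option autoImplicit false

/-! # Local smoothing for axially symmetric and radially decreasing data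

Let `d = m + 1 ≥ 2`, `2 ≤ p ≤ 4` (for `d ≥ 3` this contains all exponents
`2d/(d-1) ≤ p < 2(d+1)/(d-1)` for which the conjecture is open) and `s > 0` (if `p ≥ 2d/(d-1)` and
`σ < 1/p` then `s_p - σ > 0`). The estimate of Q1 holds for all data whose slices `f_j(x, ·)`, in
some orthonormal coordinates `(y, x)`, `y ∈ ℝ^{d-1}`, `x ∈ ℝ`, are sums without cancellation of at
most `k` complex multiples of

(1) mixtures of bumps with a common point, where the Fourier transforms of the bumps decay like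
`∏ (1 + a_i |η_i|) ^ (-β)`, `β > 1 - 1/p`;

(2) mixtures of functions `(1 - |y - b|_r²)_+^κ`, where `|y - b|_r² = ∑ ((y_i - b_i) / r_i)²`,
supported in ellipsoids with a common point, if `(d - 2 - 2κ) p < 2 (d - 1)`. For `κ = 1` this is
true for all `p < 2(d+1)/(d-1)`, for every `d`;

(3) radially decreasing functions, if `(d - 2) p < 2 (d - 1)`. For `d = 3` this is `p < 4`, so that
the range `3 ≤ p < 4` in which the conjecture is open is covered.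

The dependence on `x` is arbitrary (also of the centres, the radii and the common points).
-/

open MeasureTheory Set
open scoped ENNReal FourierTransform RealInnerProductSpace

namespace Pool.Agent.Results.MP_ee74d2_an.AxialData

/-- `ℝ^d` -/
abbrev E (d : ℕ) : Type := EuclideanSpace ℝ (Fin d)

/-- `φ ≥ 0` is a bump at `c` of widths `a_i ≥ 0`: for all `η ∈ ℝ^m`,
`|φ^(η)| ≤ B ∏ (1 + a_i |η_i|) ^ (-β) ∫_{|y_i - c_i| ≤ a_i for all i} φ(y) dy`. -/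
def Bump (m : ℕ) (β B : ℝ) (c a : Fin m → ℝ) (φ : (Fin m → ℝ) → ℝ) : Prop :=
  (∀ i, 0 ≤ a i) ∧ (∀ y, 0 ≤ φ y) ∧ ∀ η : Fin m → ℝ,
    ‖∫ y : Fin m → ℝ, Complex.exp (((2 * Real.pi * (-(∑ i, y i * η i)) : ℝ) : ℂ) * Complex.I) *
      ((φ y : ℝ) : ℂ)‖ ≤
      B * (∏ i, (1 + a i * |η i|) ^ (-β)) * ∫ y in {y : Fin m → ℝ | ∀ i, |y i - c i| ≤ a i}, φ y

/-- `g` is a mixture `g(y) = ∫ φ_ω(y) dμ(ω)` of bumps `φ_ω` at a common point `c` (of any widths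
`a(ω)`), for some σ-finite (or s-finite) measure `μ`. -/
def Mixture (m : ℕ) (β B : ℝ) (g : (Fin m → ℝ) → ℝ≥0∞) : Prop :=
  ∃ (Ω : Type) (_ : MeasurableSpace Ω) (μ : Measure Ω) (_ : SFinite μ)
    (φ : Ω → (Fin m → ℝ) → ℝ) (a : Ω → Fin m → ℝ) (c : Fin m → ℝ),
    Measurable (fun q : Ω × (Fin m → ℝ) => φ q.1 q.2) ∧ (∀ ω, Bump m β B c (a ω) (φ ω)) ∧
    ∀ y, g y = ∫⁻ ω, ENNReal.ofReal (φ ω y) ∂μ

/-- `(1 - t) ^ κ` for `t ≤ 1` and `0` for `t > 1` -/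
noncomputable def cap (κ : ℕ) (t : ℝ) : ℝ := if t ≤ 1 then (1 - t) ^ κ else 0

/-- `g` is a mixture of the functions `(1 - ∑ ((y_i - b_i) / r_i) ^ 2) ^ κ` on the ellipsoids
`∑ ((y_i - b_i) / r_i) ^ 2 ≤ 1` (`0` outside), where the ellipsoids have a common point `c`. -/
def Ellipsoids (κ m : ℕ) (g : (Fin m → ℝ) → ℝ≥0∞) : Prop :=
  ∃ (Ω : Type) (_ : MeasurableSpace Ω) (μ : Measure Ω) (_ : SFinite μ) (b r : Ω → Fin m → ℝ)
    (c : Fin m → ℝ), Measurable b ∧ Measurable r ∧ (∀ ω i, 0 < r ω i) ∧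
    (∀ ω, ∑ i, ((c i - b ω i) / r ω i) ^ 2 ≤ 1) ∧
    ∀ y, g y = ∫⁻ ω, ENNReal.ofReal (cap κ (∑ i, ((y i - b ω i) / r ω i) ^ 2)) ∂μ

/-- `g` is radially decreasing: `|y - c| ≤ |y' - c|` implies `g(y') ≤ g(y)`, for some `c`. -/
def RadDecr (m : ℕ) (g : (Fin m → ℝ) → ℝ≥0∞) : Prop :=
  ∃ c : Fin m → ℝ, ∀ y y' : Fin m → ℝ,
    ∑ i, (y i - c i) ^ 2 ≤ ∑ i, (y' i - c i) ^ 2 → g y' ≤ g y

/-- The point with the coordinates `y_0, …, y_{m-1}, x` in the orthonormal basis `v`. -/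
noncomputable def pt {m : ℕ} (v : OrthonormalBasis (Fin (m + 1)) ℝ (E (m + 1))) (x : ℝ)
    (y : Fin m → ℝ) : E (m + 1) :=
  x • v (Fin.last m) + ∑ i : Fin m, y i • v i.castSucc

/-- The class of data on `ℝ^(m+1)` given by a class `𝒢` of functions on `ℝ^m`: for some orthonormal
basis and almost every `x`, the function `f(x, ·)` is almost everywhere a sum of `k` complex
multiples `w_j g_j` of integrable functions `g_j` in `𝒢`, such that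
`∑ ‖w_j g_j‖_p^p ≤ A ‖f(x, ·)‖_p^p` (for instance `A = 1` if `k = 1`, or if the supports of the `g_j`
are disjoint). -/
def Data (m k : ℕ) (A p : ℝ) (𝒢 : ((Fin m → ℝ) → ℝ≥0∞) → Prop) (f : E (m + 1) → ℂ) : Prop :=
  ∃ v : OrthonormalBasis (Fin (m + 1)) ℝ (E (m + 1)), ∀ᵐ x : ℝ,
    ∃ (w : Fin k → ℂ) (g : Fin k → (Fin m → ℝ) → ℝ≥0∞),
      (∀ j, 𝒢 (g j)) ∧ (∀ j, ∫⁻ y, g j y ≠ ∞) ∧
      (∀ᵐ y : Fin m → ℝ, f (pt v x y) = ∑ j, w j * (((g j y).toReal : ℝ) : ℂ)) ∧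
      ∑ j, ∫⁻ y, (‖w j‖ₑ * g j y) ^ p ≤
        ENNReal.ofReal A * ∫⁻ y : Fin m → ℝ, ‖f (pt v x y)‖ₑ ^ p

/-- The symbol `(1 + 4π²|ζ|²)^(a/2)` of `(I - Δ)^(a/2)`. -/
noncomputable def bessel {d : ℕ} (a : ℝ) (ζ : E d) : ℝ :=
  (1 + 4 * Real.pi ^ 2 * ‖ζ‖ ^ 2) ^ (a / 2)

/-- For `τ = 0`: the solution `u(t, z)` of the wave equation on `ℝ^d` with data
`u(0) = (I - Δ)^(-s/2) f₀`, `∂ₜu(0) = (I - Δ)^((1-s)/2) f₁`, i.e. the inverse Fourier transform of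
`cos(2πt|ζ|) (1+4π²|ζ|²)^(-s/2) f₀^(ζ) + sin(2πt|ζ|)/(2π|ζ|) (1+4π²|ζ|²)^((1-s)/2) f₁^(ζ)`.
For `τ > 0`: the same with the factor `exp(-τ|ζ|²)` (the solution regularised by the heat flow). -/
noncomputable def wave {d : ℕ} (s τ : ℝ) (f₀ f₁ : E d → ℂ) (t : ℝ) (z : E d) : ℂ :=
  ∫ ζ : E d, Complex.exp (((2 * Real.pi * ⟪z, ζ⟫ : ℝ) : ℂ) * Complex.I) *
    (((Real.exp (-(τ * ‖ζ‖ ^ 2)) : ℝ) : ℂ) *
      (((Real.cos (2 * Real.pi * (t * ‖ζ‖)) * bessel (-s) ζ : ℝ) : ℂ) * 𝓕 f₀ ζ +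
       ((Real.sin (2 * Real.pi * (t * ‖ζ‖)) / (2 * Real.pi * ‖ζ‖) * bessel (1 - s) ζ : ℝ) : ℂ) *
        𝓕 f₁ ζ))

/-- The estimate of Q1 for a class of data: there is a constant `C` such that
`∫_1^2 ‖u(t)‖_p^p dt ≤ C A (‖f₀‖_p^p + ‖f₁‖_p^p)` for all `A ≥ 0` and all integrable `f₀, f₁` in the
class `Data m k A p 𝒢`, where `u` is the solution with the data `u(0) = (I - Δ)^(-s/2) f₀`,
`∂ₜu(0) = (I - Δ)^((1-s)/2) f₁`, or its regularisation by the heat flow up to the time `τ ∈ (0, 1]`;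
for `τ = 0` we assume that `u(0)` and `(I - Δ)^(-s/2) f₁` have integrable Fourier transforms. -/
def LocalSmoothing (m k : ℕ) (s p : ℝ) (𝒢 : ((Fin m → ℝ) → ℝ≥0∞) → Prop) : Prop :=
  ∃ C : ℝ, 0 < C ∧ ∀ (A : ℝ) (f₀ f₁ : E (m + 1) → ℂ), 0 ≤ A →
    Integrable f₀ → Integrable f₁ → Data m k A p 𝒢 f₀ → Data m k A p 𝒢 f₁ →
    ∀ τ : ℝ, 0 ≤ τ → τ ≤ 1 →
    (0 < τ ∨ (Integrable (fun ζ => ((bessel (-s) ζ : ℝ) : ℂ) * 𝓕 f₀ ζ) ∧
      Integrable (fun ζ => ((bessel (-s) ζ : ℝ) : ℂ) * 𝓕 f₁ ζ))) →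
    ∫⁻ t in Icc (1 : ℝ) 2, ∫⁻ z, ‖wave s τ f₀ f₁ t z‖ₑ ^ p ≤
      ENNReal.ofReal (C * A) * ((∫⁻ z, ‖f₀ z‖ₑ ^ p) + ∫⁻ z, ‖f₁ z‖ₑ ^ p)

theorem Data.mono {m k : ℕ} {A p : ℝ} {𝒢 𝒢' : ((Fin m → ℝ) → ℝ≥0∞) → Prop} {f : E (m + 1) → ℂ}
    (h : Data m k A p 𝒢 f) (h𝒢 : ∀ g, 𝒢 g → 𝒢' g) : Data m k A p 𝒢' f := by
  obtain ⟨v, hv⟩ := h
  refine ⟨v, ?_⟩
  filter_upwards [hv] with x hx
  obtain ⟨w, g, h1, h2⟩ := hx
  exact ⟨w, g, fun j => h𝒢 _ (h1 j), h2⟩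

theorem LocalSmoothing.mono {m k : ℕ} {s p : ℝ} {𝒢 𝒢' : ((Fin m → ℝ) → ℝ≥0∞) → Prop}
    (h : LocalSmoothing m k s p 𝒢') (h𝒢 : ∀ g, 𝒢 g → 𝒢' g) : LocalSmoothing m k s p 𝒢 := by
  obtain ⟨C, hC, h1⟩ := h
  exact ⟨C, hC, fun A f₀ f₁ hA i0 i1 d0 d1 => h1 A f₀ f₁ hA i0 i1 (d0.mono h𝒢) (d1.mono h𝒢)⟩

open Pool.Agent.TH280.LS in
theorem wave_eq {d : ℕ} (s τ : ℝ) (f₀ f₁ : E d → ℂ) (t : ℝ) (z : E d) :
    wave s τ f₀ f₁ t z = wv d s τ f₀ f₁ t z := by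
  have hneg : -s / 2 = -(s / 2) := by ring
  unfold wave wv bessel e
  rw [hneg]

open Pool.Agent.TH280.LS in
/-- the slices of data of the class -/
theorem slice_bound (m k : ℕ) (p β B : ℝ) (hp : 2 ≤ p) (hβ : 1 - 1 / p < β) (hB : 0 ≤ B) :
    ∃ C : ℝ, 0 < C ∧
    ∀ (A : ℝ) (h : (Fin m → ℝ) → ℂ) (w : Fin k → ℂ) (g : Fin k → (Fin m → ℝ) → ℝ≥0∞), 0 ≤ A →
      (∀ j, Mixture m β B (g j)) → (∀ j, ∫⁻ y, g j y ≠ ∞) →
      (∀ᵐ y : Fin m → ℝ, h y = ∑ j, w j * (((g j y).toReal : ℝ) : ℂ)) →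
      ∑ j, ∫⁻ y, (‖w j‖ₑ * g j y) ^ p ≤ ENNReal.ofReal A * ∫⁻ y : Fin m → ℝ, ‖h y‖ₑ ^ p →
      ∫⁻ η : Fin m → ℝ, ENNReal.ofReal ((∏ i, |η i|) ^ (p - 2)) * ‖ftm m h η‖ₑ ^ p ≤
        ENNReal.ofReal (C * A) * ∫⁻ y : Fin m → ℝ, ‖h y‖ₑ ^ p := by
  obtain ⟨C, hC, hbp⟩ := T9h44.LS3.mixture_paley m p β B hp hβ hB
  have hp0 : 0 < p := by linarith
  have hp1 : 0 < p - 1 := by linarith
  refine ⟨((k : ℝ) + 1) ^ (p - 1) * C, by positivity, ?_⟩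
  intro A h w g hA hg hfin hae hsum
  have hgm : ∀ j, Measurable (g j) := fun j => T9h44.LS3.Mixture.measurable (hg j)
  have hint : ∀ j, Integrable fun y => (((g j y).toReal : ℝ) : ℂ) := fun j =>
    (integrable_toReal_of_lintegral_ne_top (hgm j).aemeasurable (hfin j)).ofReal
  have hch : ∀ η : Fin m → ℝ, ∀ j, Integrable fun y : Fin m → ℝ =>
      e (-(∑ i, y i * η i)) * (w j * (((g j y).toReal : ℝ) : ℂ)) := by
    intro η j
    refine Integrable.bdd_mul (c := 1) ((hint j).const_mul (w j)) ?_ ?_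
    · exact (T9h44.LS2.measurable_chm η).aestronglyMeasurable
    · exact Filter.Eventually.of_forall fun y => (norm_e _).le
  have hft : ∀ η, ftm m h η = ∑ j, w j * ftm m (fun y => (((g j y).toReal : ℝ) : ℂ)) η := by
    intro η
    have h1 : ftm m h η = ∫ y : Fin m → ℝ, ∑ j,
        e (-(∑ i, y i * η i)) * (w j * (((g j y).toReal : ℝ) : ℂ)) := by
      unfold ftm
      refine integral_congr_ae ?_
      filter_upwards [hae] with y hy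
      rw [hy, Finset.mul_sum]
    rw [h1, integral_finsetSum _ fun j _ => hch η j]
    refine Finset.sum_congr rfl fun j _ => ?_
    unfold ftm
    rw [← integral_const_mul]
    refine integral_congr_ae (Filter.Eventually.of_forall fun y => ?_)
    simp only
    ring
  have hftm : ∀ j, Measurable (ftm m (fun y => (((g j y).toReal : ℝ) : ℂ))) := by
    intro j
    have h1 : StronglyMeasurable (fun q : (Fin m → ℝ) × (Fin m → ℝ) =>
        e (-(∑ i, q.2 i * q.1 i)) * (((g j q.2).toReal : ℝ) : ℂ)) := by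
      apply Measurable.stronglyMeasurable
      refine Measurable.mul (measurable_e.comp (Measurable.neg (by fun_prop))) ?_
      exact Complex.measurable_ofReal.comp (((hgm j).comp measurable_snd).ennreal_toReal)
    exact (h1.integral_prod_right' (ν := volume)).measurable
  have hwm : Measurable fun η : Fin m → ℝ => ENNReal.ofReal ((∏ i, |η i|) ^ (p - 2)) := by
    fun_prop
  calc ∫⁻ η : Fin m → ℝ, ENNReal.ofReal ((∏ i, |η i|) ^ (p - 2)) * ‖ftm m h η‖ₑ ^ p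
      ≤ ∫⁻ η : Fin m → ℝ, (k : ℝ≥0∞) ^ (p - 1) * ∑ j, ‖w j‖ₑ ^ p *
          (ENNReal.ofReal ((∏ i, |η i|) ^ (p - 2)) *
            ‖ftm m (fun y => (((g j y).toReal : ℝ) : ℂ)) η‖ₑ ^ p) := by
        refine lintegral_mono fun η => ?_
        rw [hft η]
        have h1 : ‖∑ j, w j * ftm m (fun y => (((g j y).toReal : ℝ) : ℂ)) η‖ₑ ^ p ≤
            (k : ℝ≥0∞) ^ (p - 1) * ∑ j, ‖w j * ftm m (fun y => (((g j y).toReal : ℝ) : ℂ)) η‖ₑ ^ p := by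
          refine (ENNReal.rpow_le_rpow (enorm_sum_le _ _) hp0.le).trans ?_
          have := ENNReal.rpow_sum_le_const_mul_sum_rpow (Finset.univ : Finset (Fin k))
            (fun j => ‖w j * ftm m (fun y => (((g j y).toReal : ℝ) : ℂ)) η‖ₑ) (p := p)
            (by linarith)
          rwa [Finset.card_univ, Fintype.card_fin] at this
        refine (mul_le_mul_right h1 _).trans (le_of_eq ?_)
        rw [← mul_assoc, mul_comm _ ((k : ℝ≥0∞) ^ (p - 1)), mul_assoc, Finset.mul_sum]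
        congr 1
        refine Finset.sum_congr rfl fun j _ => ?_
        rw [enorm_mul, ENNReal.mul_rpow_of_nonneg _ _ hp0.le]
        ring
    _ = (k : ℝ≥0∞) ^ (p - 1) * ∑ j, ‖w j‖ₑ ^ p * ∫⁻ η : Fin m → ℝ,
          ENNReal.ofReal ((∏ i, |η i|) ^ (p - 2)) *
            ‖ftm m (fun y => (((g j y).toReal : ℝ) : ℂ)) η‖ₑ ^ p := by
        rw [lintegral_const_mul' _ _ (ENNReal.rpow_ne_top_of_nonneg hp1.le
          (ENNReal.natCast_ne_top k)), lintegral_finsetSum]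
        · congr 1
          refine Finset.sum_congr rfl fun j _ => ?_
          rw [lintegral_const_mul' _ _ (ENNReal.rpow_ne_top_of_nonneg hp0.le enorm_ne_top)]
        · intro j _
          exact (hwm.mul ((hftm j).enorm.pow_const p)).const_mul _
    _ ≤ (k : ℝ≥0∞) ^ (p - 1) * ∑ j, ‖w j‖ₑ ^ p * (ENNReal.ofReal C * ∫⁻ y, g j y ^ p) := by
        have h1 : ∀ j : Fin k, ∫⁻ η : Fin m → ℝ, ENNReal.ofReal ((∏ i, |η i|) ^ (p - 2)) *
            ‖ftm m (fun y => (((g j y).toReal : ℝ) : ℂ)) η‖ₑ ^ p ≤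
              ENNReal.ofReal C * ∫⁻ y, g j y ^ p := fun j => hbp (g j) (hg j) (hfin j)
        gcongr with j
        exact h1 j
    _ = (k : ℝ≥0∞) ^ (p - 1) * ENNReal.ofReal C * ∑ j, ∫⁻ y, (‖w j‖ₑ * g j y) ^ p := by
        rw [mul_assoc]
        congr 1
        rw [Finset.mul_sum]
        refine Finset.sum_congr rfl fun j _ => ?_
        rw [← mul_assoc, mul_comm (‖w j‖ₑ ^ p), mul_assoc]
        congr 1
        rw [← lintegral_const_mul _ ((hgm j).pow_const p)]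
        refine lintegral_congr fun y => ?_
        rw [ENNReal.mul_rpow_of_nonneg _ _ hp0.le]
    _ ≤ ENNReal.ofReal (((k : ℝ) + 1) ^ (p - 1)) * ENNReal.ofReal C *
          (ENNReal.ofReal A * ∫⁻ y : Fin m → ℝ, ‖h y‖ₑ ^ p) := by
        refine mul_le_mul' (mul_le_mul_left ?_ _) hsum
        rw [← ENNReal.ofReal_rpow_of_pos (by positivity)]
        refine ENNReal.rpow_le_rpow ?_ hp1.le
        rw [← ENNReal.ofReal_natCast]
        exact ENNReal.ofReal_le_ofReal (by linarith)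
    _ = _ := by
        rw [← ENNReal.ofReal_mul (by positivity), ← mul_assoc, ← ENNReal.ofReal_mul (by positivity)]

open Pool.Agent.TH280.LS in
theorem tp : S_TP := by
  have hW : S_W := Pool.Agent.TH889.W.w_thm
  have hDUAL : S_DUAL := Pool.Agent.TH889.DUAL.dual_thm Pool.Agent.TH496.MOD.mod_thm hW
  have hONE : S_ONE := Pool.Agent.TH312.ONE.one_thm
    (Pool.Agent.TH986.SUM.sum_thm (Pool.Agent.TH73.LS4.ls4_thm hDUAL hW))
  exact Pool.Agent.TH209.TP.tp_thm Pool.Agent.TH902.T2.t2_thm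
    (Pool.Agent.TH228.T4.t4_thm Pool.Agent.TH400.E4.e4_thm hONE)

theorem mixture_smoothing (m k : ℕ) (hm : 1 ≤ m) (s p β B : ℝ) (hs : 0 < s) (hp : 2 ≤ p)
    (hp4 : p ≤ 4) (hβ : 1 - 1 / p < β) (hB : 0 ≤ B) : LocalSmoothing m k s p (Mixture m β B) := by
  have hp0 : 0 < p := by linarith
  have hneg : -s / 2 = -(s / 2) := by ring
  obtain ⟨C1, hC1, h1⟩ := T9h44.LS2.one_slices tp m s p (by omega) hs hp hp4
  have h2p : (2 : ℝ≥0∞) ^ (p - 1) = ENNReal.ofReal (2 ^ (p - 1)) := by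
    rw [← ENNReal.ofReal_rpow_of_pos (by norm_num)]
    norm_num
  obtain ⟨C2, hC2, h2⟩ := slice_bound m k p β B hp hβ hB
  refine ⟨2 ^ (p - 1) * (C1 * C2), by positivity, ?_⟩
  intro A f₀ f₁ hA hi₀ hi₁ hd₀ hd₁ τ hτ hτ1 hcase
  have key : ∀ f : E (m + 1) → ℂ, Integrable f → Data m k A p (Mixture m β B) f →
      ∀ τ : ℝ, 0 < τ → τ ≤ 1 →
      (∫⁻ t in Icc (1 : ℝ) 2, ∫⁻ z, ‖TH280.LS.RM m (TH280.LS.mc s τ t) f z‖ₑ ^ p ≤
        ENNReal.ofReal (C1 * (C2 * A)) * ∫⁻ z, ‖f z‖ₑ ^ p) ∧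
      (∫⁻ t in Icc (1 : ℝ) 2, ∫⁻ z, ‖TH280.LS.RM m (TH280.LS.ms s τ t) f z‖ₑ ^ p ≤
        ENNReal.ofReal (C1 * (C2 * A)) * ∫⁻ z, ‖f z‖ₑ ^ p) := by
    rintro f hf ⟨v, hv⟩ τ hτ hτ1
    have h3 := h1 f v (fun x => ENNReal.ofReal (C2 * A) *
      ∫⁻ y : Fin m → ℝ, ‖f (T9h44.LS2.pt v x y)‖ₑ ^ p) hf (by
      filter_upwards [hv] with x hx
      obtain ⟨w, g, hg, hfin, hae, hsum⟩ := hx
      exact h2 A (fun y => f (pt v x y)) w g hA hg hfin hae hsum) τ hτ hτ1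
    rw [lintegral_const_mul' _ _ ENNReal.ofReal_ne_top, T9h44.LS2.lint_pt v (fun z => ‖f z‖ₑ ^ p)
      (hf.1.aemeasurable.enorm.pow_const p), ← mul_assoc, ← ENNReal.ofReal_mul hC1.le] at h3
    exact h3
  have h5 := T9h44.LS2.wv_all2 m s p hs hp f₀ f₁ hi₀ hi₁ _ _
    (fun τ hτ hτ1 => (key f₀ hi₀ hd₀ τ hτ hτ1).1) (fun τ hτ hτ1 => (key f₁ hi₁ hd₁ τ hτ hτ1).2) τ hτ
    hτ1 (by
      unfold bessel at hcase
      rw [hneg] at hcase
      exact hcase)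
  simp only [wave_eq]
  refine h5.trans (le_of_eq ?_)
  rw [h2p, ← mul_add, ← mul_assoc, ← ENNReal.ofReal_mul (by positivity)]
  congr 2
  ring

theorem exponent (m κ : ℕ) (hm : 1 ≤ m) (p : ℝ) (hp : 2 ≤ p)
    (h : ((m : ℝ) - 1 - 2 * κ) * p < 2 * m) : 1 - 1 / p < T9h44.LS3.bb κ m := by
  have hm0 : (0 : ℝ) < m := Nat.cast_pos.2 (by omega)
  have hp0 : 0 < p := by linarith
  unfold T9h44.LS3.bb
  rw [lt_div_iff₀ (by positivity)]
  have h1 : (1 - 1 / p) * (2 * m) = (2 * m * p - 2 * m) / p := by field_simp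
  rw [h1, div_lt_iff₀ hp0]
  nlinarith

/-- **Local smoothing for axially symmetric and radially decreasing data.** Let `d = m + 1 ≥ 2`,
`s > 0`, `2 ≤ p ≤ 4`, `k ∈ ℕ`. The estimate of Q1 holds for data whose slices are sums without
cancellation of `k` complex multiples of
(1) mixtures of `(β, B)`-bumps with a common point, if `β > 1 - 1/p`;
(2) mixtures of `(1 - |y - b|_r²)_+^κ` over ellipsoids `|y - b|_r ≤ 1` with a common point, if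
`(m - 1 - 2κ) p < 2m`;
(3) radially decreasing functions, if `(m - 1) p < 2m`. -/
theorem result (m k : ℕ) (hm : 1 ≤ m) (s p : ℝ) (hs : 0 < s) (hp : 2 ≤ p) (hp4 : p ≤ 4) :
    (∀ β B : ℝ, 1 - 1 / p < β → 0 ≤ B → LocalSmoothing m k s p (Mixture m β B)) ∧
    (∀ κ : ℕ, ((m : ℝ) - 1 - 2 * κ) * p < 2 * m → LocalSmoothing m k s p (Ellipsoids κ m)) ∧
    (((m : ℝ) - 1) * p < 2 * m → LocalSmoothing m k s p (RadDecr m)) := by
  refine ⟨fun β B hβ hB => mixture_smoothing m k hm s p β B hs hp hp4 hβ hB, fun κ hκ => ?_,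
    fun h0 => ?_⟩
  · obtain ⟨B, hB, h1⟩ := T9h44.LS3.ellipsoids_mixture κ m (by omega)
    exact (mixture_smoothing m k hm s p _ B hs hp hp4 (exponent m κ hm p hp hκ) hB.le).mono h1
  · obtain ⟨B, hB, h1⟩ := T9h44.LS3.radDecr_mixture m (by omega)
    exact (mixture_smoothing m k hm s p _ B hs hp hp4 (exponent m 0 hm p hp (by simpa using h0))
      hB.le).mono h1

end Pool.Agent.Results.MP_ee74d2_an.AxialData
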