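import Pool.Agent.T9h44.LS2.H5
import Pool.Agent.TH400.LS_E4
import Pool.Agent.TH89.LS_F
import Pool.Agent.TH496.LS_MOD
import Pool.Agent.TH889.LS_W
import Pool.Agent.TH889.LS_DUAL
import Pool.Agent.TH73.LS_LS4
import Pool.Agent.TH986.LS_SUM
import Pool.Agent.TH312.LS_ONE
import Pool.Agent.TH902.LS_T2
import Pool.Agent.TH228.LS_T4
import Pool.Agent.TH209.LS_TP

set_option autoImplicit false

/-! # Local smoothing and dilations of `d - 1` variables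

Let `d = m + 1 ≥ 2`, `2 ≤ p ≤ 4` (for `d ≥ 3` this contains all exponents
`2d/(d-1) ≤ p < 2(d+1)/(d-1)` for which the conjecture is open) and `s > 0` (if `p ≥ 2d/(d-1)` and
`σ < 1/p` then `s_p - σ > 0`).

(1) For all Schwartz data the `L^p` norm of the solution on `ℝ^d × [1, 2]` is at most a constant
times the `L^p` norm of `y_1 ∂_1 ⋯ y_{d-1} ∂_{d-1} f_j`, in any orthonormal coordinates
`(y, x)`, `y ∈ ℝ^{d-1}`, `x ∈ ℝ`; there is no loss of derivatives in `x`, and the derivatives in `y`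
are invariant under dilations of the coordinates `y_i`.

(2) The estimate of Q1 holds for all data whose slices `f_j(x, ·)` are sums without cancellation of
at most `k` complex multiples of mixtures of boxes having a point in common.
-/

open MeasureTheory Set LineDeriv
open scoped ENNReal FourierTransform RealInnerProductSpace SchwartzMap

namespace Pool.Agent.Results.MP_ee74d2_an.DilationRegularData

/-- `ℝ^d` -/
abbrev E (d : ℕ) : Type := EuclideanSpace ℝ (Fin d)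

/-- `g` is a mixture of indicator functions of (closed, axis-parallel) boxes of `ℝ^m` which have a
point in common: `g(y) = μ {ω | y ∈ [a(ω), b(ω)]}`, where `a(ω) ≤ c ≤ b(ω)` for all `ω`. -/
def Boxes (m : ℕ) (g : (Fin m → ℝ) → ℝ≥0∞) : Prop :=
  ∃ (Ω : Type) (_ : MeasurableSpace Ω) (μ : Measure Ω) (_ : SFinite μ) (a b : Ω → Fin m → ℝ)
    (c : Fin m → ℝ), Measurable a ∧ Measurable b ∧ (∀ ω i, a ω i ≤ c i ∧ c i ≤ b ω i) ∧
    ∀ y, g y = μ {ω | ∀ i, a ω i ≤ y i ∧ y i ≤ b ω i}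

/-- The point with the coordinates `y_0, …, y_{m-1}, x` in the orthonormal basis `v`. -/
noncomputable def pt {m : ℕ} (v : OrthonormalBasis (Fin (m + 1)) ℝ (E (m + 1))) (x : ℝ)
    (y : Fin m → ℝ) : E (m + 1) :=
  x • v (Fin.last m) + ∑ i : Fin m, y i • v i.castSucc

/-- The class of data on `ℝ^(m+1)`: for some orthonormal basis and almost every `x`, the function
`f(x, ·)` is almost everywhere a sum of `k` complex multiples `w_j g_j` of integrable mixtures `g_j`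
of boxes of `ℝ^m` with a common point (which may depend on `x` and `j`), such that
`∑ ‖w_j g_j‖_p^p ≤ A ‖f(x, ·)‖_p^p` (for instance `A = 1` if the supports of the `g_j` are
disjoint). -/
def Data (m k : ℕ) (A p : ℝ) (f : E (m + 1) → ℂ) : Prop :=
  ∃ v : OrthonormalBasis (Fin (m + 1)) ℝ (E (m + 1)), ∀ᵐ x : ℝ,
    ∃ (w : Fin k → ℂ) (g : Fin k → (Fin m → ℝ) → ℝ≥0∞),
      (∀ j, Boxes m (g j)) ∧ (∀ j, ∫⁻ y, g j y ≠ ∞) ∧
      (∀ᵐ y : Fin m → ℝ, f (pt v x y) = ∑ j, w j * (((g j y).toReal : ℝ) : ℂ)) ∧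
      ∑ j, ∫⁻ y, (‖w j‖ₑ * g j y) ^ p ≤
        ENNReal.ofReal A * ∫⁻ y : Fin m → ℝ, ‖f (pt v x y)‖ₑ ^ p

/-- `∫ |y_1 ⋯ y_m ∂_1 ⋯ ∂_m f|^p` for the coordinates `y_i = ⟨v_i, z⟩`, `i < m`. -/
noncomputable def dilationNorm {m : ℕ} (p : ℝ)
    (v : OrthonormalBasis (Fin (m + 1)) ℝ (E (m + 1))) (f : 𝓢(E (m + 1), ℂ)) : ℝ≥0∞ :=
  ∫⁻ z, ‖((∏ i : Fin m, (⟪v i.castSucc, z⟫ : ℝ) : ℝ) : ℂ) *
    (∂^{fun i : Fin m => v i.castSucc} f : 𝓢(E (m + 1), ℂ)) z‖ₑ ^ p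

/-- The symbol `(1 + 4π²|ζ|²)^(a/2)` of `(I - Δ)^(a/2)`. -/
noncomputable def bessel {d : ℕ} (a : ℝ) (ζ : E d) : ℝ :=
  (1 + 4 * Real.pi ^ 2 * ‖ζ‖ ^ 2) ^ (a / 2)

/-- For `τ = 0`: the solution `u(t, z)` of the wave equation on `ℝ^d` with data
`u(0) = (I - Δ)^(-s/2) f₀`, `∂ₜu(0) = (I - Δ)^((1-s)/2) f₁`, i.e. the inverse Fourier transform of
`cos(2πt|ζ|) (1+4π²|ζ|²)^(-s/2) f₀^(ζ) + sin(2πt|ζ|)/(2π|ζ|) (1+4π²|ζ|²)^((1-s)/2) f₁^(ζ)`.
For `τ > 0`: the same with the factor `exp(-τ|ζ|²)` (the solution regularised by the heat flow). -/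
noncomputable def wave {d : ℕ} (s τ : ℝ) (f₀ f₁ : E d → ℂ) (t : ℝ) (z : E d) : ℂ :=
  ∫ ζ : E d, Complex.exp (((2 * Real.pi * ⟪z, ζ⟫ : ℝ) : ℂ) * Complex.I) *
    (((Real.exp (-(τ * ‖ζ‖ ^ 2)) : ℝ) : ℂ) *
      (((Real.cos (2 * Real.pi * (t * ‖ζ‖)) * bessel (-s) ζ : ℝ) : ℂ) * 𝓕 f₀ ζ +
       ((Real.sin (2 * Real.pi * (t * ‖ζ‖)) / (2 * Real.pi * ‖ζ‖) * bessel (1 - s) ζ : ℝ) : ℂ) *
        𝓕 f₁ ζ))

open Pool.Agent.TH280.LS in
theorem wave_eq {d : ℕ} (s τ : ℝ) (f₀ f₁ : E d → ℂ) (t : ℝ) (z : E d) :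
    wave s τ f₀ f₁ t z = wv d s τ f₀ f₁ t z := by
  have hneg : -s / 2 = -(s / 2) := by ring
  unfold wave wv bessel e
  rw [hneg]

theorem boxes_measurable {m : ℕ} {g : (Fin m → ℝ) → ℝ≥0∞} (hg : Boxes m g) : Measurable g := by
  obtain ⟨Ω, _, μ, _, a, b, c, ha, hb, _, hg⟩ := hg
  have h1 : g = fun y => μ ((fun ω => (ω, y)) ⁻¹' T9h44.LS2.Reg a b) := by
    funext y
    rw [hg y]
    rfl
  rw [h1]
  exact measurable_measure_prodMk_right (T9h44.LS2.measurableSet_Reg ha hb)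

open Pool.Agent.TH280.LS in
/-- the slices of data of the class -/
theorem slice_bound (m k : ℕ) (p : ℝ) (hp : 2 ≤ p) : ∃ C : ℝ, 0 < C ∧
    ∀ (A : ℝ) (h : (Fin m → ℝ) → ℂ) (w : Fin k → ℂ) (g : Fin k → (Fin m → ℝ) → ℝ≥0∞), 0 ≤ A →
      (∀ j, Boxes m (g j)) → (∀ j, ∫⁻ y, g j y ≠ ∞) →
      (∀ᵐ y : Fin m → ℝ, h y = ∑ j, w j * (((g j y).toReal : ℝ) : ℂ)) →
      ∑ j, ∫⁻ y, (‖w j‖ₑ * g j y) ^ p ≤ ENNReal.ofReal A * ∫⁻ y : Fin m → ℝ, ‖h y‖ₑ ^ p →
      ∫⁻ η : Fin m → ℝ, ENNReal.ofReal ((∏ i, |η i|) ^ (p - 2)) * ‖ftm m h η‖ₑ ^ p ≤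
        ENNReal.ofReal (C * A) * ∫⁻ y : Fin m → ℝ, ‖h y‖ₑ ^ p := by
  obtain ⟨C, hC, hbp⟩ := T9h44.LS2.boxes_paley m p hp
  have hp0 : 0 < p := by linarith
  have hp1 : 0 < p - 1 := by linarith
  refine ⟨((k : ℝ) + 1) ^ (p - 1) * C, by positivity, ?_⟩
  intro A h w g hA hg hfin hae hsum
  have hgm : ∀ j, Measurable (g j) := fun j => boxes_measurable (hg j)
  have hint : ∀ j, Integrable fun y => (((g j y).toReal : ℝ) : ℂ) := fun j =>
    (integrable_toReal_of_lintegral_ne_top (hgm j).aemeasurable (hfin j)).ofReal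
  have hch : ∀ η : Fin m → ℝ, ∀ j, Integrable fun y : Fin m → ℝ =>
      e (-(∑ i, y i * η i)) * (w j * (((g j y).toReal : ℝ) : ℂ)) := by
    intro η j
    refine Integrable.bdd_mul (c := 1) ((hint j).const_mul (w j)) ?_ ?_
    · exact (T9h44.LS2.measurable_chm η).aestronglyMeasurable
    · exact Filter.Eventually.of_forall fun y => (norm_e _).le
  have hft : ∀ η, ftm m h η = ∑ j, w j * ftm m (fun y => (((g j y).toReal : ℝ) : ℂ)) η := by
    intro η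
    have h1 : ftm m h η = ∫ y : Fin m → ℝ, ∑ j,
        e (-(∑ i, y i * η i)) * (w j * (((g j y).toReal : ℝ) : ℂ)) := by
      unfold ftm
      refine integral_congr_ae ?_
      filter_upwards [hae] with y hy
      rw [hy, Finset.mul_sum]
    rw [h1, integral_finsetSum _ fun j _ => hch η j]
    refine Finset.sum_congr rfl fun j _ => ?_
    unfold ftm
    rw [← integral_const_mul]
    refine integral_congr_ae (Filter.Eventually.of_forall fun y => ?_)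
    simp only
    ring
  have hftm : ∀ j, Measurable (ftm m (fun y => (((g j y).toReal : ℝ) : ℂ))) := by
    intro j
    have h1 : StronglyMeasurable (fun q : (Fin m → ℝ) × (Fin m → ℝ) =>
        e (-(∑ i, q.2 i * q.1 i)) * (((g j q.2).toReal : ℝ) : ℂ)) := by
      apply Measurable.stronglyMeasurable
      refine Measurable.mul (measurable_e.comp (Measurable.neg (by fun_prop))) ?_
      exact Complex.measurable_ofReal.comp (((hgm j).comp measurable_snd).ennreal_toReal)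
    exact (h1.integral_prod_right' (ν := volume)).measurable
  have hwm : Measurable fun η : Fin m → ℝ => ENNReal.ofReal ((∏ i, |η i|) ^ (p - 2)) := by
    fun_prop
  calc ∫⁻ η : Fin m → ℝ, ENNReal.ofReal ((∏ i, |η i|) ^ (p - 2)) * ‖ftm m h η‖ₑ ^ p
      ≤ ∫⁻ η : Fin m → ℝ, (k : ℝ≥0∞) ^ (p - 1) * ∑ j, ‖w j‖ₑ ^ p *
          (ENNReal.ofReal ((∏ i, |η i|) ^ (p - 2)) *
            ‖ftm m (fun y => (((g j y).toReal : ℝ) : ℂ)) η‖ₑ ^ p) := by
        refine lintegral_mono fun η => ?_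
        rw [hft η]
        have h1 : ‖∑ j, w j * ftm m (fun y => (((g j y).toReal : ℝ) : ℂ)) η‖ₑ ^ p ≤
            (k : ℝ≥0∞) ^ (p - 1) * ∑ j, ‖w j * ftm m (fun y => (((g j y).toReal : ℝ) : ℂ)) η‖ₑ ^ p := by
          refine (ENNReal.rpow_le_rpow (enorm_sum_le _ _) hp0.le).trans ?_
          have := ENNReal.rpow_sum_le_const_mul_sum_rpow (Finset.univ : Finset (Fin k))
            (fun j => ‖w j * ftm m (fun y => (((g j y).toReal : ℝ) : ℂ)) η‖ₑ) (p := p)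
            (by linarith)
          rwa [Finset.card_univ, Fintype.card_fin] at this
        refine (mul_le_mul_right h1 _).trans (le_of_eq ?_)
        rw [← mul_assoc, mul_comm _ ((k : ℝ≥0∞) ^ (p - 1)), mul_assoc, Finset.mul_sum]
        congr 1
        refine Finset.sum_congr rfl fun j _ => ?_
        rw [enorm_mul, ENNReal.mul_rpow_of_nonneg _ _ hp0.le]
        ring
    _ = (k : ℝ≥0∞) ^ (p - 1) * ∑ j, ‖w j‖ₑ ^ p * ∫⁻ η : Fin m → ℝ,
          ENNReal.ofReal ((∏ i, |η i|) ^ (p - 2)) *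
            ‖ftm m (fun y => (((g j y).toReal : ℝ) : ℂ)) η‖ₑ ^ p := by
        rw [lintegral_const_mul' _ _ (ENNReal.rpow_ne_top_of_nonneg hp1.le
          (ENNReal.natCast_ne_top k)), lintegral_finsetSum]
        · congr 1
          refine Finset.sum_congr rfl fun j _ => ?_
          rw [lintegral_const_mul' _ _ (ENNReal.rpow_ne_top_of_nonneg hp0.le enorm_ne_top)]
        · intro j _
          exact (hwm.mul ((hftm j).enorm.pow_const p)).const_mul _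
    _ ≤ (k : ℝ≥0∞) ^ (p - 1) * ∑ j, ‖w j‖ₑ ^ p * (ENNReal.ofReal C * ∫⁻ y, g j y ^ p) := by
        have h1 : ∀ j : Fin k, ∫⁻ η : Fin m → ℝ, ENNReal.ofReal ((∏ i, |η i|) ^ (p - 2)) *
            ‖ftm m (fun y => (((g j y).toReal : ℝ) : ℂ)) η‖ₑ ^ p ≤
              ENNReal.ofReal C * ∫⁻ y, g j y ^ p := fun j => hbp (g j) (hg j) (hfin j)
        gcongr with j
        exact h1 j
    _ = (k : ℝ≥0∞) ^ (p - 1) * ENNReal.ofReal C * ∑ j, ∫⁻ y, (‖w j‖ₑ * g j y) ^ p := by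
        rw [mul_assoc]
        congr 1
        rw [Finset.mul_sum]
        refine Finset.sum_congr rfl fun j _ => ?_
        rw [← mul_assoc, mul_comm (‖w j‖ₑ ^ p), mul_assoc]
        congr 1
        rw [← lintegral_const_mul _ ((hgm j).pow_const p)]
        refine lintegral_congr fun y => ?_
        rw [ENNReal.mul_rpow_of_nonneg _ _ hp0.le]
    _ ≤ ENNReal.ofReal (((k : ℝ) + 1) ^ (p - 1)) * ENNReal.ofReal C *
          (ENNReal.ofReal A * ∫⁻ y : Fin m → ℝ, ‖h y‖ₑ ^ p) := by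
        refine mul_le_mul' (mul_le_mul_left ?_ _) hsum
        rw [← ENNReal.ofReal_rpow_of_pos (by positivity)]
        refine ENNReal.rpow_le_rpow ?_ hp1.le
        rw [← ENNReal.ofReal_natCast]
        exact ENNReal.ofReal_le_ofReal (by linarith)
    _ = _ := by
        rw [← ENNReal.ofReal_mul (by positivity), ← mul_assoc, ← ENNReal.ofReal_mul (by positivity)]

open Pool.Agent.TH280.LS in
theorem tp : S_TP := by
  have hW : S_W := Pool.Agent.TH889.W.w_thm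
  have hDUAL : S_DUAL := Pool.Agent.TH889.DUAL.dual_thm Pool.Agent.TH496.MOD.mod_thm hW
  have hONE : S_ONE := Pool.Agent.TH312.ONE.one_thm
    (Pool.Agent.TH986.SUM.sum_thm (Pool.Agent.TH73.LS4.ls4_thm hDUAL hW))
  exact Pool.Agent.TH209.TP.tp_thm Pool.Agent.TH902.T2.t2_thm
    (Pool.Agent.TH228.T4.t4_thm Pool.Agent.TH400.E4.e4_thm hONE)

/-- **Local smoothing and dilations of `d - 1` variables.** Let `d = m + 1 ≥ 2`, `s > 0`,
`2 ≤ p ≤ 4`.
(1) There is a constant `C` such that for all Schwartz functions `f₀, f₁` on `ℝ^d`, all orthonormal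
bases `v₀, v₁`, and the solution `u` of the wave equation with data `u(0) = (I - Δ)^(-s/2) f₀`,
`∂ₜu(0) = (I - Δ)^((1-s)/2) f₁`, one has
`∫_1^2 ‖u(t)‖_p^p dt ≤ C ∑_j ‖y_1 ⋯ y_m ∂_1 ⋯ ∂_m f_j‖_p^p`, where `y_1, …, y_m`
are the coordinates for the first `m` vectors of `v_j`.
(2) For all `k` there is a constant `C` such that
`∫_1^2 ‖u(t)‖_p^p dt ≤ C A (‖f₀‖_p^p + ‖f₁‖_p^p)` for all `A ≥ 0` and all integrable `f₀, f₁` in the
class `Data m k A p`, and the same is true of the solution regularised by the heat flow up to the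
time `τ ∈ [0, 1]`; for `τ = 0` we assume that `u(0)` and `(I - Δ)^(-s/2) f₁` have integrable Fourier
transforms. -/
theorem result (m : ℕ) (hm : 1 ≤ m) (s p : ℝ) (hs : 0 < s) (hp : 2 ≤ p) (hp4 : p ≤ 4) :
    (∃ C : ℝ, 0 < C ∧ ∀ (f₀ f₁ : 𝓢(E (m + 1), ℂ))
      (v₀ v₁ : OrthonormalBasis (Fin (m + 1)) ℝ (E (m + 1))),
      ∫⁻ t in Icc (1 : ℝ) 2, ∫⁻ z, ‖wave s 0 f₀ f₁ t z‖ₑ ^ p ≤
        ENNReal.ofReal C * (dilationNorm p v₀ f₀ + dilationNorm p v₁ f₁)) ∧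
    ∀ k : ℕ, ∃ C : ℝ, 0 < C ∧ ∀ (A : ℝ) (f₀ f₁ : E (m + 1) → ℂ), 0 ≤ A →
      Integrable f₀ → Integrable f₁ → Data m k A p f₀ → Data m k A p f₁ →
      ∀ τ : ℝ, 0 ≤ τ → τ ≤ 1 →
      (0 < τ ∨ (Integrable (fun ζ => ((bessel (-s) ζ : ℝ) : ℂ) * 𝓕 f₀ ζ) ∧
        Integrable (fun ζ => ((bessel (-s) ζ : ℝ) : ℂ) * 𝓕 f₁ ζ))) →
      ∫⁻ t in Icc (1 : ℝ) 2, ∫⁻ z, ‖wave s τ f₀ f₁ t z‖ₑ ^ p ≤
        ENNReal.ofReal (C * A) * ((∫⁻ z, ‖f₀ z‖ₑ ^ p) + ∫⁻ z, ‖f₁ z‖ₑ ^ p) := by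
  have hp0 : 0 < p := by linarith
  have hneg : -s / 2 = -(s / 2) := by ring
  obtain ⟨C1, hC1, h1⟩ := T9h44.LS2.one_slices tp m s p (by omega) hs hp hp4
  have h2p : (2 : ℝ≥0∞) ^ (p - 1) = ENNReal.ofReal (2 ^ (p - 1)) := by
    rw [← ENNReal.ofReal_rpow_of_pos (by norm_num)]
    norm_num
  refine ⟨?_, ?_⟩
  · obtain ⟨C2, hC2, h2⟩ := T9h44.LS2.hardy_m m p hp
    refine ⟨2 ^ (p - 1) * (C1 * C2), by positivity, ?_⟩
    intro f₀ f₁ v₀ v₁
    -- one datum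
    have key : ∀ (f : 𝓢(E (m + 1), ℂ)) (v : OrthonormalBasis (Fin (m + 1)) ℝ (E (m + 1)))
        (τ : ℝ), 0 < τ → τ ≤ 1 →
        (∫⁻ t in Icc (1 : ℝ) 2, ∫⁻ z, ‖TH280.LS.RM m (TH280.LS.mc s τ t) f z‖ₑ ^ p ≤
          ENNReal.ofReal (C1 * C2) * dilationNorm p v f) ∧
        (∫⁻ t in Icc (1 : ℝ) 2, ∫⁻ z, ‖TH280.LS.RM m (TH280.LS.ms s τ t) f z‖ₑ ^ p ≤
          ENNReal.ofReal (C1 * C2) * dilationNorm p v f) := by
      intro f v τ hτ hτ1
      have h3 := h1 f v (fun x => ENNReal.ofReal C2 * ∫⁻ y : Fin m → ℝ,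
        ((∏ i, ‖y i‖ₑ) * ‖(∂^{fun i : Fin m => v i.castSucc} f : 𝓢(E (m + 1), ℂ))
          (T9h44.LS2.pt v x y)‖ₑ) ^ p) f.integrable (Filter.Eventually.of_forall fun x => by
        have hVm : Measurable (fun y : Fin m → ℝ => (∏ i, ‖y i‖ₑ) *
            ‖(∂^{fun i : Fin m => v i.castSucc} f : 𝓢(E (m + 1), ℂ))
              (T9h44.LS2.pt v x y)‖ₑ) := by
          refine Measurable.mul (by fun_prop) ?_
          exact ((SchwartzMap.continuous _).comp (T9h44.LS2.continuous_pt v x)).measurable.enorm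
        refine le_trans (lintegral_mono fun η => mul_le_mul_right (ENNReal.rpow_le_rpow
          (T9h44.LS2.ftm_bound v f x η) hp0.le) _) (h2 _ hVm.aemeasurable)) τ hτ hτ1
      have h4 : ∫⁻ x : ℝ, ENNReal.ofReal C2 * ∫⁻ y : Fin m → ℝ,
          ((∏ i, ‖y i‖ₑ) * ‖(∂^{fun i : Fin m => v i.castSucc} f : 𝓢(E (m + 1), ℂ))
            (T9h44.LS2.pt v x y)‖ₑ) ^ p = ENNReal.ofReal C2 * dilationNorm p v f := by
        rw [lintegral_const_mul' _ _ ENNReal.ofReal_ne_top]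
        congr 1
        unfold dilationNorm
        rw [← T9h44.LS2.lint_pt v]
        · refine lintegral_congr fun x => lintegral_congr fun y => ?_
          rw [enorm_mul]
          congr 2
          simp only [T9h44.LS2.pt_inner]
          simp only [← ofReal_norm]
          rw [Complex.norm_real, norm_prod, ENNReal.ofReal_prod_of_nonneg fun i _ => norm_nonneg _]
        · refine (Continuous.measurable ?_).enorm.pow_const p |>.aemeasurable
          refine Continuous.mul ?_ (SchwartzMap.continuous _)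
          exact Complex.continuous_ofReal.comp (continuous_finsetProd _ fun i _ => by fun_prop)
      rw [h4, ← mul_assoc, ← ENNReal.ofReal_mul hC1.le] at h3
      exact h3
    have h5 := T9h44.LS2.wv_all2 m s p hs hp f₀ f₁ f₀.integrable f₁.integrable _ _
      (fun τ hτ hτ1 => (key f₀ v₀ τ hτ hτ1).1) (fun τ hτ hτ1 => (key f₁ v₁ τ hτ hτ1).2) 0 le_rfl
      zero_le_one (Or.inr ?_)
    · simp only [wave_eq]
      refine h5.trans (le_of_eq ?_)
      rw [h2p, ← mul_add, ← mul_assoc, ← ENNReal.ofReal_mul (by positivity)]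
    · have hb : ∀ f : 𝓢(E (m + 1), ℂ), Integrable (fun ζ : E (m + 1) =>
          (((1 + 4 * Real.pi ^ 2 * ‖ζ‖ ^ 2) ^ (-(s / 2)) : ℝ) : ℂ) * 𝓕 (f : E (m + 1) → ℂ) ζ) := by
        intro f
        have h6 : Integrable (𝓕 (f : E (m + 1) → ℂ)) := by
          rw [← SchwartzMap.fourier_coe]
          exact SchwartzMap.integrable _
        refine Integrable.bdd_mul (c := 1) h6 ?_ ?_
        · refine (Complex.measurable_ofReal.comp ?_).aestronglyMeasurable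
          exact Measurable.pow_const (by fun_prop) _
        · refine Filter.Eventually.of_forall fun ζ => ?_
          have h7 : (1 : ℝ) ≤ 1 + 4 * Real.pi ^ 2 * ‖ζ‖ ^ 2 := by
            have : 0 ≤ 4 * Real.pi ^ 2 * ‖ζ‖ ^ 2 := by positivity
            linarith
          rw [Complex.norm_real, Real.norm_eq_abs, abs_of_nonneg (by positivity)]
          exact Real.rpow_le_one_of_one_le_of_nonpos h7 (by linarith)
      exact ⟨hb f₀, hb f₁⟩
  · intro k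
    obtain ⟨C2, hC2, h2⟩ := slice_bound m k p hp
    refine ⟨2 ^ (p - 1) * (C1 * C2), by positivity, ?_⟩
    intro A f₀ f₁ hA hi₀ hi₁ hd₀ hd₁ τ hτ hτ1 hcase
    have key : ∀ f : E (m + 1) → ℂ, Integrable f → Data m k A p f → ∀ τ : ℝ, 0 < τ → τ ≤ 1 →
        (∫⁻ t in Icc (1 : ℝ) 2, ∫⁻ z, ‖TH280.LS.RM m (TH280.LS.mc s τ t) f z‖ₑ ^ p ≤
          ENNReal.ofReal (C1 * (C2 * A)) * ∫⁻ z, ‖f z‖ₑ ^ p) ∧
        (∫⁻ t in Icc (1 : ℝ) 2, ∫⁻ z, ‖TH280.LS.RM m (TH280.LS.ms s τ t) f z‖ₑ ^ p ≤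
          ENNReal.ofReal (C1 * (C2 * A)) * ∫⁻ z, ‖f z‖ₑ ^ p) := by
      rintro f hf ⟨v, hv⟩ τ hτ hτ1
      have h3 := h1 f v (fun x => ENNReal.ofReal (C2 * A) *
        ∫⁻ y : Fin m → ℝ, ‖f (T9h44.LS2.pt v x y)‖ₑ ^ p) hf (by
        filter_upwards [hv] with x hx
        obtain ⟨w, g, hg, hfin, hae, hsum⟩ := hx
        exact h2 A (fun y => f (pt v x y)) w g hA hg hfin hae hsum) τ hτ hτ1
      rw [lintegral_const_mul' _ _ ENNReal.ofReal_ne_top, T9h44.LS2.lint_pt v (fun z => ‖f z‖ₑ ^ p)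
        (hf.1.aemeasurable.enorm.pow_const p), ← mul_assoc, ← ENNReal.ofReal_mul hC1.le] at h3
      exact h3
    have h5 := T9h44.LS2.wv_all2 m s p hs hp f₀ f₁ hi₀ hi₁ _ _
      (fun τ hτ hτ1 => (key f₀ hi₀ hd₀ τ hτ hτ1).1) (fun τ hτ hτ1 => (key f₁ hi₁ hd₁ τ hτ hτ1).2) τ hτ
      hτ1 (by
        unfold bessel at hcase
        rw [hneg] at hcase
        exact hcase)
    simp only [wave_eq]
    refine h5.trans (le_of_eq ?_)
    rw [h2p, ← mul_add, ← mul_assoc, ← ENNReal.ofReal_mul (by positivity)]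
    congr 2
    ring

end Pool.Agent.Results.MP_ee74d2_an.DilationRegularData
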