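import Pool.Agent.T9h44.LS.M5
import Pool.Agent.N441.LS.LPA
import Pool.Agent.N297.LS.Lpk
import Pool.Agent.N558.LS.MUL
import Pool.Agent.N413.LS.BES
import Pool.Agent.N764.LS.PD
import Pool.Agent.N562.LS.BW
import Pool.Agent.N362.LS.ENA
import Pool.Agent.N914.LS.ENB
import Pool.Agent.N655.LS.EN
import Pool.Agent.N287.LS.YOU

set_option autoImplicit false

/-!
# The estimate of Q1 in the mean for randomised data

Fix a smooth window `κ` with compact support on `ℝ^d` (for instance with `∑_m κ(ξ - m) = 1`), and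
decompose the data `u₀, u₁` into the pieces `κ(D - m) u_j`, `m ∈ ℤ^d`. Let `p ≥ 2`, `0 ≤ θ < 2`,
`θ < s`, `0 ≤ t ≤ 2`.

(3) *Random signs on blocks.* Let `B_i` be finitely many pairwise disjoint finite subsets of `ℤ^d`
such that each of them has at most `V R^γ` points in `(-R, R)^d`, for all `R ≥ 1`, where
`γ (1/2 - 1/p) = θ`. Give to all the pieces with `m ∈ B_i` the same random sign `ε_i = ±1`. For the
solution `u^ε` of the wave equation with these randomised data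

`E_ε ‖u^ε(t)‖_p^p ≤ C V^(p/2-1) (‖u₀‖_{L^p_s}^p + ‖u₁‖_{L^p_{s-1}}^p)`

for all Schwartz data, with a constant which depends on `d, p, θ, s, κ` only (not on the blocks).
For `s = s_p - σ` this is the estimate of Q1, at each fixed time, in the mean over the signs. Since
`s_p - σ > (d-1)/2 - d/p` for all `σ < 1/p`, it holds in the full range of Q1 if
`γ ≤ d - 1 - 2/(p-2)`, in particular for all `p ≥ 2d/(d-1)` if the blocks have bounded size; for
`p = 2(d+1)/(d-1)` the blocks may have `R^((d-1)/2)` points in `(-R, R)^d`.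

(2) More generally it is enough that `B_i ∩ (-R, R)^d` is a `Λ(p)` set with constant `A R^θ` for
each block (nothing is assumed on their unions), with `A^p` in place of `V^(p/2-1)`.

(1) Still more generally the signs can be replaced by any finite family `a^ω ∈ ℂ^(ℤ^d)` of
multipliers which satisfies, in the mean over `ω`, the `L²(𝕋^d) → L^p(𝕋^d)` estimate with the
constant `A R^θ` for frequencies in `(-R, R)^d`.

Proof: local energy: in a unit ball around `z` the function `u^ω(t)` is a superposition of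
modulations of trigonometric polynomials whose coefficients are `a^ω_m` times the coefficients of
`u(t)`, which do not depend on `ω` and have an `ℓ²` norm at most the square root of the local energy
of `u(t)` at `z`. So the mean over `ω` of the `p`-th powers of the local norms is at most
`(A R^θ)^p` times the power `p/2` of the local energy, and this is at most a constant times the
power `p/2` of that of the data (weighted energy estimate). Then Young's inequality, and summation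
over the dyadic shells. For (2), (3): the inequalities of Khintchine and Minkowski.

The local estimate, the energy estimate, the Bessel potentials on shells: co-authors helper170,
helper262, helper287, helper297, helper303, helper362, helper413, helper441, helper492, helper558,
helper562, helper655, helper764, helper914 (their result SparseSpectra is deterministic and restricts
the spectrum of the data); Khintchine's inequality for even moments is from `H47R2`.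
-/

open MeasureTheory
open scoped ENNReal FourierTransform RealInnerProductSpace SchwartzMap

namespace Pool.Agent.Results.MP_ee74d2_an.RandomisedData

/-- `ℝ^d` -/
abbrev E (d : ℕ) : Type := EuclideanSpace ℝ (Fin d)

/-- The inverse Fourier transform `∫ exp(2πi x·ξ) F(ξ) dξ`. -/
noncomputable def inv {d : ℕ} (F : E d → ℂ) (x : E d) : ℂ :=
  ∫ ξ : E d, Complex.exp (((2 * Real.pi * ⟪x, ξ⟫ : ℝ) : ℂ) * Complex.I) * F ξ

/-- The solution `u(t, x)` of the wave equation on `ℝ^d` with data `u(0)`, `∂ₜu(0)` whose Fourier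
transforms are `F₀, F₁`: the inverse Fourier transform of
`cos(2πt|ξ|) F₀(ξ) + sin(2πt|ξ|)/(2π|ξ|) F₁(ξ)`. -/
noncomputable def wave {d : ℕ} (F₀ F₁ : E d → ℂ) (t : ℝ) (x : E d) : ℂ :=
  inv (fun ξ => ((Real.cos (2 * Real.pi * t * ‖ξ‖) : ℝ) : ℂ) * F₀ ξ +
    ((Real.sin (2 * Real.pi * t * ‖ξ‖) / (2 * Real.pi * ‖ξ‖) : ℝ) : ℂ) * F₁ ξ) x

/-- The symbol `(1 + 4π²|ξ|²)^(a/2)` of `(I - Δ)^(a/2)`. -/
noncomputable def bessel {d : ℕ} (a : ℝ) (ξ : E d) : ℂ :=
  (((1 + 4 * Real.pi ^ 2 * ‖ξ‖ ^ 2) ^ (a / 2) : ℝ) : ℂ)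

/-- `‖f‖^p` for the norm of `L^p_a`: the integral of `|(I - Δ)^(a/2) f|^p`. -/
noncomputable def sobolev {d : ℕ} (a p : ℝ) (f : 𝓢(E d, ℂ)) : ℝ≥0∞ :=
  ∫⁻ x : E d, ‖inv (fun ξ => bessel a ξ * 𝓕 (f : E d → ℂ) ξ) x‖ₑ ^ p

/-- The symbol `∑_{m ∈ T} a_m κ(ξ - m)`. -/
noncomputable def symbol {d : ℕ} (κ : 𝓢(E d, ℂ)) (T : Finset (Fin d → ℤ)) (a : (Fin d → ℤ) → ℂ)
    (ξ : E d) : ℂ :=
  ∑ m ∈ T, a m * κ (ξ - WithLp.toLp 2 fun i => (m i : ℝ))

/-- The `p`-th moment `∑_ω ‖u^ω(t)‖_p^p` of the solutions `u^ω` with the data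
`∑_{m ∈ T} a^ω_m κ(D - m) u_j`, `j = 0, 1`. -/
noncomputable def moment {d : ℕ} {Ω : Type} [Fintype Ω] (p : ℝ) (κ : 𝓢(E d, ℂ))
    (T : Finset (Fin d → ℤ)) (a : Ω → (Fin d → ℤ) → ℂ) (u₀ u₁ : 𝓢(E d, ℂ)) (t : ℝ) : ℝ≥0∞ :=
  ∑ ω, ∫⁻ x : E d, ‖wave (fun ξ => symbol κ T (a ω) ξ * 𝓕 (u₀ : E d → ℂ) ξ)
    (fun ξ => symbol κ T (a ω) ξ * 𝓕 (u₁ : E d → ℂ) ξ) t x‖ₑ ^ p

/-- `|Ω|^(-1) ∑_ω ∫_{[0,1)^d} |∑_{m ∈ S} a^ω_m c_m exp(2πi x·m)|^p dx ≤ Λ^p (∑_{m ∈ S} |c_m|²)^(p/2)`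
for all coefficients `c`. For `Ω` a point and `a = 1`: `S` is a `Λ(p)` set with constant `Λ`. -/
def MeanLambda {d : ℕ} {Ω : Type} [Fintype Ω] (p Λ : ℝ) (S : Finset (Fin d → ℤ))
    (a : Ω → (Fin d → ℤ) → ℂ) : Prop :=
  ∀ c : (Fin d → ℤ) → ℂ,
    ∑ ω, ∫⁻ x in {x : E d | ∀ i, x i ∈ Set.Ico (0 : ℝ) 1}, ‖∑ m ∈ S, a ω m * c m *
      Complex.exp (((2 * Real.pi * ⟪x, WithLp.toLp 2 fun i => (m i : ℝ)⟫ : ℝ) : ℂ) *
        Complex.I)‖ₑ ^ p ≤
      (Fintype.card Ω : ℝ≥0∞) * ENNReal.ofReal (Λ ^ p) * (∑ m ∈ S, ‖c m‖ₑ ^ (2 : ℝ)) ^ (p / 2)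

/-- The points of `S` in the cube `(-R, R)^d`. -/
def cut {d : ℕ} (R : ℕ) (S : Finset (Fin d → ℤ)) : Finset (Fin d → ℤ) :=
  S.filter fun m => ∀ i, |m i| < R

/-- The coefficients of the random signs: `ε_i` at the points of the block `B_i`. -/
def signs {d : ℕ} {ι : Type} [Fintype ι] (B : ι → Finset (Fin d → ℤ)) (ε : ι → Bool)
    (m : Fin d → ℤ) : ℂ :=
  ∑ i, if m ∈ B i then (if ε i then 1 else -1) else 0

/-- **The estimate of Q1 for randomised data, in the mean, at each fixed time.** -/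
theorem result (d : ℕ) (p θ s : ℝ) (hp : 2 ≤ p) (hθ : 0 ≤ θ) (hθ2 : θ < 2) (hs : θ < s)
    (κ : 𝓢(E d, ℂ)) (hκ : HasCompactSupport (κ : E d → ℂ)) :
    ∃ C : ℝ, 0 < C ∧
      -- (1) random multipliers
      (∀ (Ω : Type) [Fintype Ω] (T : Finset (Fin d → ℤ)) (a : Ω → (Fin d → ℤ) → ℂ) (A : ℝ),
        0 ≤ A → (∀ R : ℕ, 1 ≤ R → MeanLambda p (A * (R : ℝ) ^ θ) (cut R T) a) →
        ∀ (u₀ u₁ : 𝓢(E d, ℂ)) (t : ℝ), 0 ≤ t → t ≤ 2 →
          moment p κ T a u₀ u₁ t ≤ (Fintype.card Ω : ℝ≥0∞) * ENNReal.ofReal (C * A ^ p) *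
            (sobolev s p u₀ + sobolev (s - 1) p u₁)) ∧
      -- (2) random signs on `Λ(p)` blocks
      (∀ (ι : Type) [Fintype ι] [DecidableEq ι] (B : ι → Finset (Fin d → ℤ)) (A : ℝ), 0 ≤ A →
        (∀ i j, i ≠ j → Disjoint (B i) (B j)) →
        (∀ (i : ι) (R : ℕ), 1 ≤ R → MeanLambda (Ω := Unit) p (A * (R : ℝ) ^ θ) (cut R (B i)) 1) →
        ∀ (u₀ u₁ : 𝓢(E d, ℂ)) (t : ℝ), 0 ≤ t → t ≤ 2 →
          moment p κ (Finset.univ.biUnion B) (signs B) u₀ u₁ t ≤
            2 ^ Fintype.card ι * ENNReal.ofReal (C * A ^ p) *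
              (sobolev s p u₀ + sobolev (s - 1) p u₁)) ∧
      -- (3) random signs on small blocks
      (∀ (ι : Type) [Fintype ι] [DecidableEq ι] (B : ι → Finset (Fin d → ℤ)) (V γ : ℝ), 0 ≤ V →
        γ * (1 / 2 - 1 / p) = θ → (∀ i j, i ≠ j → Disjoint (B i) (B j)) →
        (∀ (i : ι) (R : ℕ), 1 ≤ R → ((cut R (B i)).card : ℝ) ≤ V * (R : ℝ) ^ γ) →
        ∀ (u₀ u₁ : 𝓢(E d, ℂ)) (t : ℝ), 0 ≤ t → t ≤ 2 →
          moment p κ (Finset.univ.biUnion B) (signs B) u₀ u₁ t ≤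
            2 ^ Fintype.card ι * ENNReal.ofReal (C * V ^ (p / 2 - 1)) *
              (sobolev s p u₀ + sobolev (s - 1) p u₁)) := by
  have hp0 : 0 < p := by linarith
  have hEN := Pool.Agent.N655.LS.t_en Pool.Agent.N362.LS.t_ena Pool.Agent.N303.LS.t_enb
  have hBP := Pool.Agent.N303.LS.bp Pool.Agent.N558.LS.t_mul Pool.Agent.N413.LSBES.t_bes
  have hLPK := Pool.Agent.N297.LPK.t_lpk (Pool.Agent.N441.LS.t_lpa Pool.Agent.N558.LS.t_mul)
  obtain ⟨C, hC, h⟩ := Pool.Agent.T9h44.LS.general Pool.Agent.N764.LS.PD.t_pd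
    Pool.Agent.N562.LS.t_bw hEN Pool.Agent.N287.LS.t_you hLPK hBP d p θ s hp hθ hθ2 hs κ hκ
  obtain ⟨D, hD, hkh⟩ := Pool.Agent.T9h44.LS.khin p hp
  -- the general estimate without the normalisation
  have key : ∀ (Ω : Type) [Fintype Ω] (T : Finset (Fin d → ℤ)) (a : Ω → (Fin d → ℤ) → ℂ) (G : ℝ),
      0 ≤ G → (∀ R : ℕ, 1 ≤ R → Pool.Agent.T9h44.LS.LamM p (G * (R : ℝ) ^ θ) (cut R T) a) →
      ∀ (u₀ u₁ : 𝓢(E d, ℂ)) (t : ℝ), 0 ≤ t → t ≤ 2 →
        moment p κ T a u₀ u₁ t ≤ ENNReal.ofReal (C * G ^ p) *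
          (sobolev s p u₀ + sobolev (s - 1) p u₁) :=
    fun Ω _ T a G hG hT u₀ u₁ t ht0 ht2 => h Ω T a G hG hT u₀ u₁ t ht0 ht2
  have ecof : ∀ (ι : Type) [Fintype ι] [DecidableEq ι] (B : ι → Finset (Fin d → ℤ)),
      (signs B : (ι → Bool) → (Fin d → ℤ) → ℂ) = fun ε => Pool.Agent.T9h44.LS.cof B ε := by
    intro ι _ _ B
    funext ε m
    rfl
  have hsig : ∀ (ι : Type) [Fintype ι] [DecidableEq ι] (B : ι → Finset (Fin d → ℤ)) (A : ℝ),
      0 ≤ A → (∀ i j, i ≠ j → Disjoint (B i) (B j)) →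
      (∀ (i : ι) (R : ℕ), 1 ≤ R →
        Pool.Agent.N303.LS.Lam p (A * (R : ℝ) ^ θ) (cut R (B i)) (fun _ => 1)) →
      ∀ (u₀ u₁ : 𝓢(E d, ℂ)) (t : ℝ), 0 ≤ t → t ≤ 2 →
        moment p κ (Finset.univ.biUnion B) (signs B) u₀ u₁ t ≤
          2 ^ Fintype.card ι * ENNReal.ofReal (C * D * A ^ p) *
            (sobolev s p u₀ + sobolev (s - 1) p u₁) := by
    intro ι _ _ B A hA hB hBL u₀ u₁ t ht0 ht2
    refine (key (ι → Bool) (Finset.univ.biUnion B) (signs B)
      ((D * 2 ^ Fintype.card ι) ^ (1 / p) * A) (by positivity) ?_ u₀ u₁ t ht0 ht2).trans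
      (le_of_eq ?_)
    · intro R hR
      rw [ecof, mul_assoc]
      exact Pool.Agent.T9h44.LS.lam_signs p hp D hD (hkh ι) B hB (fun m => ∀ i, |m i| < (R : ℤ))
        (A * (R : ℝ) ^ θ) (by positivity) fun i => hBL i R hR
    · congr 1
      rw [Real.mul_rpow (by positivity) hA, ← Real.rpow_mul (by positivity),
        one_div_mul_cancel hp0.ne', Real.rpow_one]
      have e : C * (D * 2 ^ Fintype.card ι * A ^ p) = 2 ^ Fintype.card ι * (C * D * A ^ p) := by
        ring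
      rw [e, ENNReal.ofReal_mul (by positivity), ENNReal.ofReal_pow (by norm_num),
        ENNReal.ofReal_ofNat]
  refine ⟨C * (1 + D) * (2 : ℝ) ^ d, by positivity, ?_, ?_, ?_⟩
  · intro Ω _ T a A hA hT u₀ u₁ t ht0 ht2
    have hcard : (0 : ℝ) ≤ (Fintype.card Ω : ℝ) := by positivity
    have e0 : (((Fintype.card Ω : ℝ)) ^ (1 / p) * A) ^ p = (Fintype.card Ω : ℝ) * A ^ p := by
      rw [Real.mul_rpow (by positivity) hA, ← Real.rpow_mul hcard, one_div_mul_cancel hp0.ne',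
        Real.rpow_one]
    refine (key Ω T a (((Fintype.card Ω : ℝ)) ^ (1 / p) * A) (by positivity) ?_ u₀ u₁ t ht0
      ht2).trans ?_
    · intro R hR c
      refine (hT R hR c).trans (le_of_eq ?_)
      have e3 : ((Fintype.card Ω : ℝ) ^ (1 / p) * A * (R : ℝ) ^ θ) ^ p =
          (Fintype.card Ω : ℝ) * (A * (R : ℝ) ^ θ) ^ p := by
        rw [mul_assoc, Real.mul_rpow (by positivity) (by positivity),
          ← Real.rpow_mul hcard, one_div_mul_cancel hp0.ne', Real.rpow_one]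
      rw [e3, ENNReal.ofReal_mul hcard, ENNReal.ofReal_natCast]
    · rw [e0]
      refine mul_le_mul' ?_ le_rfl
      have e1 : C * ((Fintype.card Ω : ℝ) * A ^ p) = (Fintype.card Ω : ℝ) * (C * A ^ p) := by ring
      rw [e1, ENNReal.ofReal_mul hcard, ENNReal.ofReal_natCast]
      refine mul_le_mul' le_rfl (ENNReal.ofReal_le_ofReal ?_)
      have h1 : (1 : ℝ) ≤ 2 ^ d := one_le_pow₀ (by norm_num)
      have h2 : C ≤ C * (1 + D) * 2 ^ d := by
        have : 0 < C * D := by positivity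
        nlinarith [mul_le_mul_of_nonneg_left h1 (show 0 ≤ C * (1 + D) by positivity)]
      exact mul_le_mul_of_nonneg_right h2 (by positivity)
  · intro ι _ _ B A hA hB hBL u₀ u₁ t ht0 ht2
    refine (hsig ι B A hA hB ?_ u₀ u₁ t ht0 ht2).trans ?_
    · intro i R hR c
      have h1 := hBL i R hR c
      rw [Fintype.card_unit, Nat.cast_one, one_mul, Fintype.sum_unique] at h1
      exact h1
    · refine mul_le_mul' (mul_le_mul' le_rfl (ENNReal.ofReal_le_ofReal ?_)) le_rfl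
      have h1 : (1 : ℝ) ≤ 2 ^ d := one_le_pow₀ (by norm_num)
      have h2 : C * D ≤ C * (1 + D) * 2 ^ d := by
        have : 0 < C * D := by positivity
        nlinarith [mul_le_mul_of_nonneg_left h1 (show 0 ≤ C * (1 + D) by positivity)]
      exact mul_le_mul_of_nonneg_right h2 (by positivity)
  · intro ι _ _ B V γ hV hγ hB hBV u₀ u₁ t ht0 ht2
    have eA : (((2 : ℝ) ^ d * V ^ (p / 2 - 1)) ^ (1 / p)) ^ p = 2 ^ d * V ^ (p / 2 - 1) := by
      rw [← Real.rpow_mul (by positivity), one_div_mul_cancel hp0.ne', Real.rpow_one]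
    refine (hsig ι B (((2 : ℝ) ^ d * V ^ (p / 2 - 1)) ^ (1 / p)) (by positivity) hB ?_ u₀ u₁ t ht0
      ht2).trans ?_
    · intro i R hR
      have hR0 : (0 : ℝ) < R := by exact_mod_cast hR
      have h1 := Pool.Agent.T9h44.LS.lam_card p hp (cut R (B i)) (V * (R : ℝ) ^ γ) (hBV i R hR)
      have e : ((2 : ℝ) ^ d * (V * (R : ℝ) ^ γ) ^ (p / 2 - 1)) ^ (1 / p) =
          ((2 : ℝ) ^ d * V ^ (p / 2 - 1)) ^ (1 / p) * (R : ℝ) ^ θ := by
        rw [Real.mul_rpow hV (by positivity), ← mul_assoc, Real.mul_rpow (by positivity)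
          (by positivity), ← Real.rpow_mul hR0.le, ← Real.rpow_mul hR0.le]
        congr 2
        rw [← hγ]
        field_simp
      rw [e] at h1
      exact h1
    · rw [eA]
      refine mul_le_mul' (mul_le_mul' le_rfl (ENNReal.ofReal_le_ofReal ?_)) le_rfl
      have h3 : 0 ≤ C * 2 ^ d * V ^ (p / 2 - 1) := by positivity
      nlinarith

end Pool.Agent.Results.MP_ee74d2_an.RandomisedData
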