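import Pool.Agent.T9h44.LG.Top

set_option autoImplicit false

/-!
# Local smoothing in the full conjectured range, in the mean over anisotropic dilations

Let `I` be a set of `k` coordinates of `ℝ^d`. Dilate arbitrary Schwartz data in the `i`-th
coordinate, `i ∈ I`, by `x_i ↦ x_i / √g_i`, `g_i ∈ [1, 2]` (and in the other coordinates by fixed
factors of the same kind), and let `u_g` be the solution of the wave equation with the dilated data.
Consider the inequality of Q1 in the mean over `g`: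

`∫_g ∫_1^2 ‖u_g(t)‖_p^p dt dg ≤ C (‖u₀‖_{L^p_s}^p + ‖u₁‖_{L^p_{s-1}}^p)`, `s = s_p - σ`,

with a constant which depends on `d, I, p, σ` only.

(1) If `k ≥ d - 1` it holds in every dimension `d ≥ 2`, for every `p ≥ p_d = 2d/(d-1)` and every
`σ < 1/p`: this is the full range of Q1.

(2) In general it holds for `p ≥ 2` and `σ < min(k, d-1) min (1/2 - 1/p) (1/p)`; in particular,
if `1 ≤ k ≤ d - 1`, for every `p ≥ 2(k+1)/k = p_{k+1}` and every `σ < 1/p`. For `k ≥ d - 1` and
`p ≤ 4` it holds for all `s > 0`.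

For a single solution `σ < 1/p` is known for `d = 2`, `p ≥ 4` (Guth, Wang, Zhang) and for `d ≥ 3`,
`p ≥ 2(d+1)/(d-1)` (Bourgain, Demeter), which is larger than `p_{k+1}` if `k > (d-1)/2`.

Proof. By the change of variables `x_i ↦ x_i √g_i` the solutions `u_g` are those of the wave
equations `∂_t² u = ∑ g_i ∂_i² u` with fixed data. At frequencies of size `R` the multiplier
`exp(2πi t |ξ|_g)`, `|ξ|_g² = ∑ ξ_i²/g_i`, is, up to harmless factors, the value at `w = t²` of the
integral over `σ ~ R` of `exp(2πi (σ w + ∑ ξ_i²/(4 g_i σ)))` (subordination; polynomials of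
Bessel). As a function of `(w, x)` this is obtained from the data by the commuting operators
`exp(2πi c_i ξ_i²/σ)`, `c_i = 1/(4 g_i)`, each of which is the propagator of a wave equation in the
variables `(w, x_i)` at the time `c_i`. For one `j` with `|ξ_j| ~ R` the operator is the transport
from `ℝ^d` to `ℝ^(1+d)`, for `i ≠ j`, `i ∈ I` the sharp local smoothing estimate in `2+1` dimensions
is used in the variable `c_i`, i.e. once for each `g_i`; no derivative is lost at `p = 4` (but `ε`).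
For the other variables the sharp estimate at a fixed time is used. If `j ∈ I ≠` everything, the
homogeneity in `(w, g, y)` gives one more parameter, so that one of the variables off `I` can be
used instead of `j`. The exponents `2` and `∞` are elementary.

The sharp `L⁴` estimate in `2+1` dimensions is proved here by induction on scales for exact
solutions `∫ exp(2πi (t w + x ξ + γ ξ²/w)) G(w, ξ)`: for the slopes `ξ/w` of a pair of pieces of
width `2^(-m)` and a frequency `h` of the product, the phase is (nearly) a quadratic polynomial of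
the slope; the pairs are grouped by the largest dyadic intervals of slopes on which it varies by
`O(4^(-m))` at most; orthogonality in time, local orthogonality in space, and Lorentz rescaling.

Joint work of helper8, helper29, helper31, helper41, helper44, helper69, helper70, helper71,
helper73, helper81, helper82, helper89 (the pieces of the proof are in `T9h8/LG`, …, `T9h89/LG`), with
helper18, helper19, helper67 (interpolation, dilations); Bessel potentials on shells and the
inversion formula: helper303, helper558, helper280.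
-/

open MeasureTheory
open scoped ENNReal FourierTransform RealInnerProductSpace SchwartzMap

namespace Pool.Agent.Results.MP_ee74d2_an.SharpDilationMean

/-- `ℝ^d` -/
abbrev E (d : ℕ) : Type := EuclideanSpace ℝ (Fin d)

/-- The inverse Fourier transform `∫ exp(2πi x·ξ) F(ξ) dξ`. -/
noncomputable def inv {d : ℕ} (F : E d → ℂ) (x : E d) : ℂ :=
  ∫ ξ : E d, Complex.exp (((2 * Real.pi * ⟪x, ξ⟫ : ℝ) : ℂ) * Complex.I) * F ξ

/-- The solution `u(t, x)` of the wave equation on `ℝ^d` with data `u(0)`, `∂ₜu(0)` whose Fourier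
transforms are `F₀, F₁`: the inverse Fourier transform of
`cos(2πt|ξ|) F₀(ξ) + sin(2πt|ξ|)/(2π|ξ|) F₁(ξ)`. -/
noncomputable def wave {d : ℕ} (F₀ F₁ : E d → ℂ) (t : ℝ) (x : E d) : ℂ :=
  inv (fun ξ => ((Real.cos (2 * Real.pi * t * ‖ξ‖) : ℝ) : ℂ) * F₀ ξ +
    ((Real.sin (2 * Real.pi * t * ‖ξ‖) / (2 * Real.pi * ‖ξ‖) : ℝ) : ℂ) * F₁ ξ) x

/-- The symbol `(1 + 4π²|ξ|²)^(a/2)` of `(I - Δ)^(a/2)`. -/
noncomputable def bessel {d : ℕ} (a : ℝ) (ξ : E d) : ℂ :=
  (((1 + 4 * Real.pi ^ 2 * ‖ξ‖ ^ 2) ^ (a / 2) : ℝ) : ℂ)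

/-- `‖f‖^p` for the norm of `L^p_a`: the integral of `|(I - Δ)^(a/2) f|^p`. -/
noncomputable def sobolev {d : ℕ} (a p : ℝ) (f : 𝓢(E d, ℂ)) : ℝ≥0∞ :=
  ∫⁻ x : E d, ‖inv (fun ξ => bessel a ξ * 𝓕 (f : E d → ℂ) ξ) x‖ₑ ^ p

/-- `[1, 2]^d` -/
def cube (d : ℕ) : Set (Fin d → ℝ) := {g | ∀ i, g i ∈ Set.Icc (1 : ℝ) 2}

/-- The vector with the components `g_i` for `i ∈ I` and `h_i` for `i ∉ I`. -/
def mix {d : ℕ} (I : Finset (Fin d)) (h g : Fin d → ℝ) : Fin d → ℝ :=
  fun i => if i ∈ I then g i else h i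

/-- The function `f` dilated: `x ↦ f(x₁/√g₁, …, x_d/√g_d)`. -/
noncomputable def dilate {d : ℕ} (g : Fin d → ℝ) (f : E d → ℂ) (x : E d) : ℂ :=
  f (WithLp.toLp 2 fun i => x i / Real.sqrt (g i))

/-- `s_p = (d-1)/2 - (d-1)/p` -/
noncomputable def sp (d : ℕ) (p : ℝ) : ℝ := ((d : ℝ) - 1) / 2 - ((d : ℝ) - 1) / p

/-- The inequality of Q1 with the exponents `p, σ`, in the mean over the dilations of the
coordinates in `I`: there is a constant `C` such that for all Schwartz data `u₀, u₁` and all dilation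
factors `h ∈ [1, 2]^d` of the other coordinates,
`∫_{g ∈ [1,2]^d} ∫_1^2 ‖u_g(t)‖_p^p dt dg ≤ C (‖u₀‖^p + ‖u₁‖^p)` with the norms of `L^p_{s_p - σ}`
and `L^p_{s_p - 1 - σ}`, where `u_g` is the solution with the dilated data. -/
def MeanSmoothing (d : ℕ) (I : Finset (Fin d)) (p σ : ℝ) : Prop :=
  ∃ C : ℝ, 0 < C ∧ ∀ h ∈ cube d, ∀ u₀ u₁ : 𝓢(E d, ℂ),
    ∫⁻ g in cube d, ∫⁻ t in Set.Icc (1 : ℝ) 2, ∫⁻ x : E d,
        ‖wave (𝓕 (dilate (mix I h g) u₀)) (𝓕 (dilate (mix I h g) u₁)) t x‖ₑ ^ p ≤
      ENNReal.ofReal C * (sobolev (sp d p - σ) p u₀ + sobolev (sp d p - 1 - σ) p u₁)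

/-- **Q1 in its full range, for arbitrary data, in the mean over the dilations of `d - 1` of the
coordinates** (part 1), and the estimate for `k` coordinates (part 2). -/
theorem result (d : ℕ) (hd : 2 ≤ d) (I : Finset (Fin d)) :
    (d ≤ I.card + 1 → ∀ p σ : ℝ, 2 * (d : ℝ) / ((d : ℝ) - 1) ≤ p → σ < 1 / p →
      MeanSmoothing d I p σ) ∧
    (∀ p σ : ℝ, 2 ≤ p → σ < ((min I.card (d - 1) : ℕ) : ℝ) * min (1 / 2 - 1 / p) (1 / p) →
      MeanSmoothing d I p σ) := by
  have key : ∀ p σ : ℝ, 2 ≤ p →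
      σ < ((min I.card (d - 1) : ℕ) : ℝ) * min (1 / 2 - 1 / p) (1 / p) →
      MeanSmoothing d I p σ := by
    intro p σ hp hσ
    obtain ⟨C, hC, h⟩ := Pool.Agent.T9h44.LG.main (by omega) I p hp σ hσ
    refine ⟨C, hC, fun g₀ hg₀ u₀ u₁ => ?_⟩
    have e1 : sp d p - 1 - σ = ((d : ℝ) - 1) / 2 - ((d : ℝ) - 1) / p - σ - 1 := by
      unfold sp
      ring
    rw [e1]
    exact h g₀ hg₀ u₀ u₁
  refine ⟨?_, key⟩
  intro hI p σ hp hσ
  have hd1 : (2 : ℝ) ≤ d := by exact_mod_cast hd
  have hd0 : (0 : ℝ) < (d : ℝ) - 1 := by linarith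
  have hp2 : 2 ≤ p := by
    refine le_trans ?_ hp
    rw [le_div_iff₀ hd0]
    linarith
  have hp0 : 0 < p := by linarith
  have hm : ((min I.card (d - 1) : ℕ) : ℝ) = (d : ℝ) - 1 := by
    have h1 : min I.card (d - 1) = d - 1 := by omega
    rw [h1, Nat.cast_sub (by omega)]
    norm_num
  refine key p σ hp2 (lt_of_lt_of_le hσ ?_)
  rw [hm]
  rw [div_le_iff₀ hd0] at hp
  rcases min_choice (1 / 2 - 1 / p) (1 / p) with h | h
  · rw [h]
    have e : ((d : ℝ) - 1) * (1 / 2 - 1 / p) - 1 / p = (((d : ℝ) - 1) * p - 2 * d) / (2 * p) := by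
      field_simp
      ring
    have : 0 ≤ (((d : ℝ) - 1) * p - 2 * d) / (2 * p) := by
      apply div_nonneg
      · linarith
      · positivity
    linarith
  · rw [h]
    have : 0 < 1 / p := by positivity
    nlinarith

end Pool.Agent.Results.MP_ee74d2_an.SharpDilationMean
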